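import Pool.Agent.P.MP_d76e6a_co.HAll
import Pool.Agent.P.MP_d76e6a_co.WMain

/-!
Bellman's lost-in-a-forest problem for triangles: outside a small zone of shapes a shortest escape
path is the optimal symmetric convex arc or a zigzag.
-/

namespace Pool.Agent.Results.MP_d76e6a_co.MostTriangles

open Real EuclideanGeometry Pool.Agent.P.MP_d76e6a_co

theorem result (X Y Z : ℂ) (hT : AffineIndependent ℝ ![X, Y, Z]) (A B h : ℝ)
    (hA : A = ∠ Y X Z) (hB : B = ∠ X Y Z) (hh : h = dist X Z * sin A) (h1 : A ≤ B)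
    (h2 : B ≤ ∠ X Z Y) (hR : ¬InZ zL A B ∨ InZig A B) :
    (∃ η, Opt A B η) ∧ ∀ η, Opt A B η →
      (∀ C, Cand A B η C → IsEscapePath (interior (convexHull ℝ {X, Y, Z})) (C h) ∧
        ∀ w, h < w → IsEscapePath (convexHull ℝ {X, Y, Z}) (C w)) ∧
      ∃ C, Cand A B η C ∧ escapeLength (convexHull ℝ {X, Y, Z}) = pathLength (C h) ∧
        escapeLength (interior (convexHull ℝ {X, Y, Z})) = pathLength (C h) := by
  have a := ang_of hT hA hB h1 h2
  refine all_of_core hT hA hB hh a (full_or_core a fun z _ v lo => ?_)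
  have w := hR.resolve_left (not_not.2 z)
  obtain ⟨-, h6, -⟩ := zig_of_cov (by decide) cov_all w.1 w.2.1 w.2.2
  have := pi_pos
  have := a.h2
  refine cov_all A B v a lo.w w.2.2 ?_ ?_ ?_ ?_ <;> unfold ang <;> push_cast <;> linarith

end Pool.Agent.Results.MP_d76e6a_co.MostTriangles
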