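import Pool.Agent.P.MP_d76e6a_co.Lower
import Pool.Agent.P.MP_d76e6a_co.Upper

/-!
Bellman's lost-in-a-forest problem for flat obtuse triangles: the Zalgaller curve whose width is
the shortest altitude is a shortest escape path.
-/

namespace Pool.Agent.Results.MP_d76e6a_co.ZalgallerTriangles

open Real EuclideanGeometry Pool.Agent.P.MP_d76e6a_co

theorem result (X Y Z : ℂ) (hT : AffineIndependent ℝ ![X, Y, Z]) (A B h : ℝ)
    (hA : A = ∠ Y X Z) (hB : B = ∠ X Y Z) (hh : h = dist X Z * sin A) (hAB : A ≤ B)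
    (z1 : 2 * cot psi ≤ cot A + cot B)
    (z2 : 1 + cot B ^ 2 ≤ 2 * (cot A + cot B) * (cot B - cot (2 * psi))) :
    escapeLength (convexHull ℝ {X, Y, Z}) = ENNReal.ofReal (zeta * h) ∧
    escapeLength (interior (convexHull ℝ {X, Y, Z})) = ENNReal.ofReal (zeta * h) ∧
    IsEscapePath (interior (convexHull ℝ {X, Y, Z})) (zalgaller h) ∧
    pathLength (zalgaller h) = ENNReal.ofReal (zeta * h) ∧
    ∀ w, h < w → IsEscapePath (convexHull ℝ {X, Y, Z}) (zalgaller w) := by
  have s1 : Std X Y Z h A B := by rw [hh, hA, hB]; exact std_of_indep hT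
  have hT' : AffineIndependent ℝ ![Y, X, Z] := by
    rw [affineIndependent_iff_not_collinear_set] at hT ⊢
    rwa [Set.insert_comm]
  have hnc : ¬Collinear ℝ {X, Y, Z} := affineIndependent_iff_not_collinear_set.1 hT
  have s2 : Std Y X Z h B A := by
    have := std_of_indep hT'
    have e2 : dist Y Z * sin (∠ X Y Z) = h := by
      have l2 := law_sin Y X Z
      rw [angle_comm Z Y X, dist_comm Z Y] at l2
      rw [hh, hA]
      linarith
    rwa [e2, ← hA, ← hB] at this
  have sA := s1.sA
  have sB := s1.sB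
  have A0 : 0 < A := by
    rcases eq_or_lt_of_le (hA ▸ angle_nonneg Y X Z : 0 ≤ A) with c | c
    · rw [← c, sin_zero] at sA; exact absurd sA (lt_irrefl _)
    · exact c
  have hπ : A + B < π := by
    have a := angle_add_angle_add_angle_eq_pi (p₁ := X) (p₂ := Y) Z (ne₁₂_of_not_collinear hnc).symm
    have b := angle_pos_of_not_collinear (p₁ := Y) (p₂ := Z) (p₃ := X) (by
      rwa [Set.insert_comm X, Set.pair_comm X] at hnc)
    rw [angle_comm Z X Y] at a
    linarith
  have p1 := sin_psi_pos
  have p2 := sin_two_psi_bounds.1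
  have z1' : 2 * sin A * sin B * cos psi ≤ sin psi * sin (A + B) := by
    simp only [cot_eq_cos_div_sin] at z1
    rw [div_add_div _ _ sA.ne' sB.ne', ← mul_div_assoc, div_le_div_iff₀ p1 (mul_pos sA sB)] at z1
    rw [sin_add]
    linarith
  have z2' : sin A * sin (2 * psi) ≤ 2 * sin (A + B) * sin (2 * psi - B) := by
    simp only [cot_eq_cos_div_sin] at z2
    have p3 : 0 < sin (2 * psi) := by linarith
    have e1 : 1 + (cos B / sin B) ^ 2 = sin A * sin (2 * psi) / (sin A * sin B ^ 2 * sin (2 * psi)) := by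
      field_simp
      exact sin_sq_add_cos_sq B
    have e2 : 2 * (cos A / sin A + cos B / sin B) * (cos B / sin B - cos (2 * psi) / sin (2 * psi)) =
        2 * sin (A + B) * sin (2 * psi - B) / (sin A * sin B ^ 2 * sin (2 * psi)) := by
      rw [sin_add, sin_sub]
      field_simp
      ring
    rwa [e1, e2, div_le_div_iff_of_pos_right (by positivity)] at z2
  have low : ∀ C, IsEscapePath (interior (convexHull ℝ {X, Y, Z})) C →
      ENNReal.ofReal (zeta * h) ≤ pathLength C := fun C hC =>
    lower_of_esc A0 hAB hπ z1' z2' hC.1 (s1.esc hC) (s2.esc (by rwa [Set.insert_comm]))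
  have mono : ∀ C, IsEscapePath (convexHull ℝ {X, Y, Z}) C →
      IsEscapePath (interior (convexHull ℝ {X, Y, Z})) C := fun C hC =>
    ⟨hC.1, fun P hP g hg hin => hC.2 P (interior_subset hP) g hg
      fun t ht => interior_subset (hin t ht)⟩
  refine ⟨le_antisymm ?_ (le_iInf₂ fun C hC => low C (mono C hC)),
    le_antisymm ((iInf₂_le _ s1.zal_open).trans (zalgaller_length s1.hpos.le)) (le_iInf₂ low),
    s1.zal_open, le_antisymm (zalgaller_length s1.hpos.le) (low _ s1.zal_open),
    fun w hw => s1.zal_closed hw⟩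
  refine ENNReal.le_of_forall_pos_le_add fun ε hε _ => ?_
  have hz := zeta_pos
  have e0 : (0 : ℝ) < ε / zeta := div_pos (by exact_mod_cast hε) hz
  refine ((iInf₂_le _ (s1.zal_closed (w := h + ε / zeta) (by linarith))).trans
    (zalgaller_length (by linarith [s1.hpos]))).trans (le_of_eq ?_)
  rw [mul_add, ENNReal.ofReal_add (mul_nonneg hz.le s1.hpos.le) (by positivity),
    mul_div_cancel₀ _ hz.ne', ENNReal.ofReal_coe_nnreal]

end Pool.Agent.Results.MP_d76e6a_co.ZalgallerTriangles
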